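import Pool.Agent.K3h85.R5.FP

/-!
# Project R5, brick HX: mean over the hexagonal faces
-/

set_option autoImplicit false

namespace Pool.Agent.K3h85.R5

open Pool.Agent.K3h26.R5

/-- the first three coordinates vanish -/
def Z3 (m : Fin 5 → ℝ) : Prop := m 0 = 0 ∧ m 1 = 0 ∧ m 2 = 0

theorem z3_eq_zero {L : AddSubgroup (Fin 5 → ℝ)} (hT : IsT L) {m : Fin 5 → ℝ} (hm : m ∈ L)
    (h : Z3 m) (h3 : |m 3| < 1) (h4 : |m 4| < 1) : m = 0 := by
  by_contra hne
  obtain ⟨a, b, c⟩ := h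
  rcases hT.1 m hm hne with h1 | h1 | h1
  · unfold n1 at h1
    rw [a, b, c, abs_zero] at h1
    norm_num at h1
  · unfold ni at h1
    rw [a, b, c, abs_zero, max_self, max_self] at h1
    norm_num at h1
  · exact absurd h1 (not_le.mpr (max_lt h3 h4))

theorem abs_mul_le {i x A B : ℝ} (h1 : |i| ≤ A) (h2 : |x| ≤ B) : |i * x| ≤ A * B := by
  rw [abs_mul]
  exact mul_le_mul h1 h2 (abs_nonneg _) ((abs_nonneg _).trans h1)

theorem near_int {L : AddSubgroup (Fin 5 → ℝ)} (hT : IsT L) {m1 m2 : Fin 5 → ℝ} (h1L : m1 ∈ L)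
    (h2L : m2 ∈ L) (h1Z : Z3 m1) (h2Z : Z3 m2) (h13 : |m1 3 - 1| ≤ 2 / 1000)
    (h14 : |m1 4| ≤ 2 / 1000) (h23 : |m2 3| ≤ 2 / 1000) (h24 : |m2 4 - 1| ≤ 2 / 1000)
    {m : Fin 5 → ℝ} (hm : m ∈ L) (hZ : Z3 m) (h3 : |m 3| ≤ 252 / 100) (h4 : |m 4| ≤ 252 / 100) :
    ∃ i j : ℤ, |m 3 - i| ≤ 12 / 1000 ∧ |m 4 - j| ≤ 12 / 1000 := by
  have hround : ∀ x : ℝ, |x| ≤ 252 / 100 → |((round x : ℤ) : ℝ)| ≤ 3 := by
    intro x hx
    have h5 := abs_sub_round x
    have h6 : |((round x : ℤ) : ℝ)| < 4 := by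
      have h7 : ((round x : ℤ) : ℝ) = x - (x - round x) := by ring
      rw [h7]
      have h8 := abs_sub x (x - round x)
      linarith
    have h7 : |round x| < 4 := by
      have h8 : ((|round x| : ℤ) : ℝ) < ((4 : ℤ) : ℝ) := by
        rw [Int.cast_abs]
        exact_mod_cast h6
      exact_mod_cast h8
    have h8 : |round x| ≤ 3 := by omega
    have h9 : ((|round x| : ℤ) : ℝ) ≤ ((3 : ℤ) : ℝ) := by exact_mod_cast h8
    rw [Int.cast_abs] at h9
    exact_mod_cast h9
  have hi := hround _ h3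
  have hj := hround _ h4
  have ri := abs_sub_round (m 3)
  have rj := abs_sub_round (m 4)
  set i : ℤ := round (m 3)
  set j : ℤ := round (m 4)
  have e3 : (m - i • m1 - j • m2) 3 = (m 3 - i) - i * (m1 3 - 1) - j * m2 3 := by
    simp only [Pi.sub_apply, Pi.smul_apply]
    rw [zsmul_eq_mul, zsmul_eq_mul]
    ring
  have e4 : (m - i • m1 - j • m2) 4 = (m 4 - j) - i * m1 4 - j * (m2 4 - 1) := by
    simp only [Pi.sub_apply, Pi.smul_apply]
    rw [zsmul_eq_mul, zsmul_eq_mul]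
    ring
  have b1 := abs_mul_le hi h13
  have b2 := abs_mul_le hj h23
  have b3 := abs_mul_le hi h14
  have b4 := abs_mul_le hj h24
  have hz : m - i • m1 - j • m2 = 0 := by
    refine z3_eq_zero hT (L.sub_mem (L.sub_mem hm (L.zsmul_mem h1L i)) (L.zsmul_mem h2L j)) ?_ ?_ ?_
    · obtain ⟨a, b, c⟩ := hZ
      obtain ⟨a1, b1, c1⟩ := h1Z
      obtain ⟨a2, b2, c2⟩ := h2Z
      refine ⟨?_, ?_, ?_⟩
      · simp only [Pi.sub_apply, Pi.smul_apply, a, a1, a2, smul_zero, sub_zero]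
      · simp only [Pi.sub_apply, Pi.smul_apply, b, b1, b2, smul_zero, sub_zero]
      · simp only [Pi.sub_apply, Pi.smul_apply, c, c1, c2, smul_zero, sub_zero]
    · rw [e3, abs_lt]
      rw [abs_le] at ri b1 b2
      constructor <;> linarith
    · rw [e4, abs_lt]
      rw [abs_le] at rj b3 b4
      constructor <;> linarith
  refine ⟨i, j, ?_, ?_⟩
  · have h5 := congrFun hz 3
    rw [e3, Pi.zero_apply] at h5
    rw [abs_le] at b1 b2 ⊢
    constructor <;> linarith
  · have h5 := congrFun hz 4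
    rw [e4, Pi.zero_apply] at h5
    rw [abs_le] at b3 b4 ⊢
    constructor <;> linarith

/-- a number of absolute value less than one whose double is near a half-integer -/
theorem near_quarter {x : ℝ} {i : ℤ} (hx : |x| < 1) (h : |2 * x - 1 / 2 - i| ≤ 15 / 1000) :
    abs (|x| - 1 / 4) ≤ 8 / 1000 ∨ abs (|x| - 3 / 4) ≤ 8 / 1000 := by
  rw [abs_lt] at hx
  rw [abs_le] at h
  have h1 : (-3 : ℤ) < i := by
    have h2 : ((-3 : ℤ) : ℝ) < (i : ℝ) := by
      push_cast
      linarith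
    exact_mod_cast h2
  have h2 : i < 2 := by
    have h3 : (i : ℝ) < ((2 : ℤ) : ℝ) := by
      push_cast
      linarith
    exact_mod_cast h3
  have h3 : i = -2 ∨ i = -1 ∨ i = 0 ∨ i = 1 := by omega
  rcases h3 with rfl | rfl | rfl | rfl
  · right
    push_cast at h
    rw [abs_of_neg (by linarith : x < 0), abs_le]
    constructor <;> linarith
  · left
    push_cast at h
    rw [abs_of_neg (by linarith : x < 0), abs_le]
    constructor <;> linarith
  · left
    push_cast at h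
    rw [abs_of_pos (by linarith : 0 < x), abs_le]
    constructor <;> linarith
  · right
    push_cast at h
    rw [abs_of_pos (by linarith : 0 < x), abs_le]
    constructor <;> linarith

theorem t_HX (_hSL : S_SL) (hMASS : S_MASS) : S_HX := by
  classical
  intro L hT hsq a b c ha hb hc
  have hpm : ∀ x : ℝ, |x| = 1 → x = 1 ∨ x = -1 := fun x hx => by
    rcases abs_choice x with h | h
    · left
      linarith
    · right
      linarith
  -- the vectors over the square faces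
  have hvec : ∀ (α β γ : ℝ), ((α = 2 ∧ β = 0 ∧ γ = 0) ∨ (α = 0 ∧ β = 2 ∧ γ = 0) ∨
      (α = 0 ∧ β = 0 ∧ γ = 2)) → ∀ t : ℝ, |t| = 1 → ∀ p q : ℝ, (p = 1 ∨ p = -1) →
      (q = 1 ∨ q = -1) → ∃ v ∈ L, v 0 = t * α ∧ v 1 = t * β ∧ v 2 = t * γ ∧
        |v 3 - p / 2| ≤ 1 / 1000 ∧ |v 4 - q / 2| ≤ 1 / 1000 := by
    intro α β γ hcase t ht p q hp hq
    rcases hpm t ht with rfl | rfl
    · obtain ⟨v, hv, h3, h4⟩ := hsq α β γ hcase p q hp hq
      obtain ⟨hL, -, h0, h1, h2⟩ := hv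
      exact ⟨v, hL, by rw [h0, one_mul], by rw [h1, one_mul], by rw [h2, one_mul], h3, h4⟩
    · have hp' : -p = 1 ∨ -p = -1 := by
        rcases hp with h | h
        · right
          rw [h]
        · left
          rw [h]
          norm_num
      have hq' : -q = 1 ∨ -q = -1 := by
        rcases hq with h | h
        · right
          rw [h]
        · left
          rw [h]
          norm_num
      obtain ⟨v, hv, h3, h4⟩ := hsq α β γ hcase (-p) (-q) hp' hq'
      obtain ⟨hL, -, h0, h1, h2⟩ := hv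
      refine ⟨-v, L.neg_mem hL, ?_, ?_, ?_, ?_, ?_⟩
      · rw [Pi.neg_apply, h0]
        ring
      · rw [Pi.neg_apply, h1]
        ring
      · rw [Pi.neg_apply, h2]
        ring
      · rw [Pi.neg_apply, ← abs_neg]
        have e : -(-v 3 - p / 2) = v 3 - -p / 2 := by ring
        rw [e]
        exact h3
      · rw [Pi.neg_apply, ← abs_neg]
        have e : -(-v 4 - q / 2) = v 4 - -q / 2 := by ring
        rw [e]
        exact h4
  -- the two short vectors
  obtain ⟨v1, v1L, v10, v11, v12, v13, v14⟩ := hvec 2 0 0 (Or.inl ⟨rfl, rfl, rfl⟩) 1 abs_one 1 1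
    (Or.inl rfl) (Or.inl rfl)
  obtain ⟨v2, v2L, v20, v21, v22, v23, v24⟩ := hvec 2 0 0 (Or.inl ⟨rfl, rfl, rfl⟩) 1 abs_one (-1) 1
    (Or.inr rfl) (Or.inl rfl)
  obtain ⟨v3, v3L, v30, v31, v32, v33, v34⟩ := hvec 2 0 0 (Or.inl ⟨rfl, rfl, rfl⟩) 1 abs_one 1 (-1)
    (Or.inl rfl) (Or.inr rfl)
  have hm1 := L.sub_mem v1L v2L
  have hm2 := L.sub_mem v1L v3L
  have key : ∀ m ∈ L, Z3 m → |m 3| ≤ 252 / 100 → |m 4| ≤ 252 / 100 →
      ∃ i j : ℤ, |m 3 - i| ≤ 12 / 1000 ∧ |m 4 - j| ≤ 12 / 1000 := by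
    intro m hm hZ h3 h4
    rw [abs_le] at v13 v14 v23 v24 v33 v34
    refine near_int hT hm1 hm2 ⟨?_, ?_, ?_⟩ ⟨?_, ?_, ?_⟩ ?_ ?_ ?_ ?_ hm hZ h3 h4
    · rw [Pi.sub_apply, v10, v20, sub_self]
    · rw [Pi.sub_apply, v11, v21, sub_self]
    · rw [Pi.sub_apply, v12, v22, sub_self]
    · rw [Pi.sub_apply, v10, v30, sub_self]
    · rw [Pi.sub_apply, v11, v31, sub_self]
    · rw [Pi.sub_apply, v12, v32, sub_self]
    · rw [Pi.sub_apply, abs_le]
      constructor <;> linarith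
    · rw [Pi.sub_apply, abs_le]
      constructor <;> linarith
    · rw [Pi.sub_apply, abs_le]
      constructor <;> linarith
    · rw [Pi.sub_apply, abs_le]
      constructor <;> linarith
  -- the positions of the contacts
  obtain ⟨s1, s1L, s10, s11, s12, s13, s14⟩ := hvec 2 0 0 (Or.inl ⟨rfl, rfl, rfl⟩) a ha 1 1
    (Or.inl rfl) (Or.inl rfl)
  obtain ⟨s2, s2L, s20, s21, s22, s23, s24⟩ := hvec 0 2 0 (Or.inr (Or.inl ⟨rfl, rfl, rfl⟩)) b hb
    (-1) (-1) (Or.inr rfl) (Or.inr rfl)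
  obtain ⟨s3, s3L, s30, s31, s32, s33, s34⟩ := hvec 0 0 2 (Or.inr (Or.inr ⟨rfl, rfl, rfl⟩)) c hc
    1 1 (Or.inl rfl) (Or.inl rfl)
  have hpos : ∀ w ∈ WW L a b c, (abs (|w 3| - 1 / 4) ≤ 8 / 1000 ∨ abs (|w 3| - 3 / 4) ≤ 8 / 1000) ∧
      (abs (|w 4| - 1 / 4) ≤ 8 / 1000 ∨ abs (|w 4| - 3 / 4) ≤ 8 / 1000) := by
    rintro w ⟨wL, wmy, w0, w1, w2⟩
    have hw3 := (max_lt_iff.mp wmy).1
    have hw4 := (max_lt_iff.mp wmy).2
    have hmL : w + w - s1 - s2 - s3 ∈ L :=
      L.sub_mem (L.sub_mem (L.sub_mem (L.add_mem wL wL) s1L) s2L) s3L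
    have hZ : Z3 (w + w - s1 - s2 - s3) := by
      refine ⟨?_, ?_, ?_⟩
      · simp only [Pi.sub_apply, Pi.add_apply, w0, s10, s20, s30]
        ring
      · simp only [Pi.sub_apply, Pi.add_apply, w1, s11, s21, s31]
        ring
      · simp only [Pi.sub_apply, Pi.add_apply, w2, s12, s22, s32]
        ring
    have hw3' := abs_lt.mp hw3
    have hw4' := abs_lt.mp hw4
    have t13 := abs_le.mp s13
    have t14 := abs_le.mp s14
    have t23 := abs_le.mp s23
    have t24 := abs_le.mp s24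
    have t33 := abs_le.mp s33
    have t34 := abs_le.mp s34
    obtain ⟨i, j, h3, h4⟩ := key _ hmL hZ
      (by
        simp only [Pi.sub_apply, Pi.add_apply]
        rw [abs_le]
        constructor <;> linarith)
      (by
        simp only [Pi.sub_apply, Pi.add_apply]
        rw [abs_le]
        constructor <;> linarith)
    simp only [Pi.sub_apply, Pi.add_apply] at h3 h4
    rw [abs_le] at h3 h4
    refine ⟨near_quarter hw3 (i := i) ?_, near_quarter hw4 (i := j) ?_⟩
    · rw [abs_le]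
      constructor <;> linarith
    · rw [abs_le]
      constructor <;> linarith
  -- the masses
  have hmass : (WW L a b c).Finite ∧ ∑ᶠ v ∈ WW L a b c, mu v = 1 := by
    have h1 : ∃ i j k : ℤ, (a = 2 * i + k ∧ b = 2 * j + k ∧ c = k) := by
      rcases hpm a ha with rfl | rfl <;> rcases hpm b hb with rfl | rfl <;>
        rcases hpm c hc with rfl | rfl
      · exact ⟨0, 0, 1, by norm_num, by norm_num, by norm_num⟩
      · exact ⟨1, 1, -1, by norm_num, by norm_num, by norm_num⟩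
      · exact ⟨0, -1, 1, by norm_num, by norm_num, by norm_num⟩
      · exact ⟨1, 0, -1, by norm_num, by norm_num, by norm_num⟩
      · exact ⟨-1, 0, 1, by norm_num, by norm_num, by norm_num⟩
      · exact ⟨0, 1, -1, by norm_num, by norm_num, by norm_num⟩
      · exact ⟨-1, -1, 1, by norm_num, by norm_num, by norm_num⟩
      · exact ⟨0, 0, -1, by norm_num, by norm_num, by norm_num⟩
    obtain ⟨i, j, k, h2, h3, h4⟩ := h1
    have h5 := hMASS L hT i j k
    rw [← h2, ← h3, ← h4] at h5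
    exact h5
  obtain ⟨hfin, hmu⟩ := hmass
  set S : Finset (Fin 5 → ℝ) := hfin.toFinset with hS
  have hmem : ∀ v, v ∈ S ↔ v ∈ WW L a b c := fun v => hfin.mem_toFinset
  rw [finsum_mem_eq_finite_toFinset_sum _ hfin] at hmu
  unfold EE
  rw [finsum_mem_eq_finite_toFinset_sum _ hfin]
  change ∑ v ∈ S, mu v = 1 at hmu
  change ∑ v ∈ S, mu v * my v ≤ 49 / 100
  have hcard : S.card ≤ 4 := by
    have h1 : S.card ≤ (Finset.univ : Finset (Prop × Prop)).card := by
      refine Finset.card_le_card_of_injOn cell (fun v _ => Finset.mem_coe.mpr (Finset.mem_univ _)) ?_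
      intro v hv v' hv' h
      obtain ⟨vL, vmy, v0, v1, v2⟩ := (hmem v).mp hv
      obtain ⟨wL, wmy, w0, w1, w2⟩ := (hmem v').mp hv'
      have h2 := z3_eq_zero hT (L.sub_mem vL wL) ⟨by rw [Pi.sub_apply, v0, w0, sub_self],
        by rw [Pi.sub_apply, v1, w1, sub_self], by rw [Pi.sub_apply, v2, w2, sub_self]⟩
        (same_sign (max_lt_iff.mp vmy).1 (max_lt_iff.mp wmy).1 (congrArg Prod.fst h))
        (same_sign (max_lt_iff.mp vmy).2 (max_lt_iff.mp wmy).2 (congrArg Prod.snd h))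
      exact sub_eq_zero.mp h2
    refine h1.trans ?_
    rw [Finset.card_univ]
    simp
  have hmu0 : ∀ v ∈ S, 0 ≤ mu v := by
    intro v hv
    obtain ⟨-, vmy, -⟩ := (hmem v).mp hv
    exact mul_nonneg (by linarith [(max_lt_iff.mp vmy).1]) (by linarith [(max_lt_iff.mp vmy).2])
  -- one contact is near the centre
  have hex : ∃ w ∈ S, |w 3| ≤ 1 / 4 + 8 / 1000 ∧ |w 4| ≤ 1 / 4 + 8 / 1000 := by
    by_contra hno
    push Not at hno
    have h1 : ∀ v ∈ S, mu v ≤ 1 / 5 := by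
      intro v hv
      have h2 := hpos v ((hmem v).mp hv)
      obtain ⟨-, vmy, -⟩ := (hmem v).mp hv
      have b3 := (max_lt_iff.mp vmy).1
      have b4 := (max_lt_iff.mp vmy).2
      have n3 := abs_nonneg (v 3)
      have n4 := abs_nonneg (v 4)
      have h3 := hno v hv
      unfold mu
      rcases h2 with ⟨h5 | h5, h6 | h6⟩
      · exfalso
        rw [abs_le] at h5 h6
        exact absurd (h3 (by linarith)) (not_lt.mpr (by linarith))
      · rw [abs_le] at h5 h6
        have h7 : (1 - |v 3|) * (1 - |v 4|) ≤ (758 / 1000) * (258 / 1000) :=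
          mul_le_mul (by linarith) (by linarith) (by linarith) (by norm_num)
        linarith
      · rw [abs_le] at h5 h6
        have h7 : (1 - |v 3|) * (1 - |v 4|) ≤ (258 / 1000) * (758 / 1000) :=
          mul_le_mul (by linarith) (by linarith) (by linarith) (by norm_num)
        linarith
      · rw [abs_le] at h5 h6
        have h7 : (1 - |v 3|) * (1 - |v 4|) ≤ (258 / 1000) * (258 / 1000) :=
          mul_le_mul (by linarith) (by linarith) (by linarith) (by norm_num)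
        linarith
    have h2 : ∑ v ∈ S, mu v ≤ ∑ _v ∈ S, (1 / 5 : ℝ) := Finset.sum_le_sum h1
    rw [Finset.sum_const, nsmul_eq_mul, hmu] at h2
    have h3 : (S.card : ℝ) ≤ 4 := by exact_mod_cast hcard
    linarith
  obtain ⟨w0, hw0, hw3, hw4⟩ := hex
  have hmy0 : my w0 ≤ 258 / 1000 := max_le (by linarith) (by linarith)
  have hmuw : 55 / 100 ≤ mu w0 := by
    have h7 : (742 / 1000 : ℝ) * (742 / 1000) ≤ (1 - |w0 3|) * (1 - |w0 4|) :=
      mul_le_mul (by linarith) (by linarith) (by norm_num) (by linarith)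
    unfold mu
    linarith
  have hmyall : ∀ v ∈ S, my v ≤ 758 / 1000 := by
    intro v hv
    have h2 := hpos v ((hmem v).mp hv)
    refine max_le ?_ ?_
    · rcases h2.1 with h5 | h5 <;> rw [abs_le] at h5 <;> linarith
    · rcases h2.2 with h5 | h5 <;> rw [abs_le] at h5 <;> linarith
  rw [← Finset.add_sum_erase S _ hw0] at hmu ⊢
  have h1 : ∑ v ∈ S.erase w0, mu v * my v ≤ ∑ v ∈ S.erase w0, mu v * (758 / 1000) :=
    Finset.sum_le_sum fun v hv => mul_le_mul_of_nonneg_left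
      (hmyall v (Finset.mem_of_mem_erase hv)) (hmu0 v (Finset.mem_of_mem_erase hv))
  rw [← Finset.sum_mul] at h1
  have h2 : mu w0 * my w0 ≤ mu w0 * (258 / 1000) :=
    mul_le_mul_of_nonneg_left hmy0 (hmu0 w0 hw0)
  linarith

end Pool.Agent.K3h85.R5
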