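import Pool.Agent.K3h26.R5.Stm

/-!
# Project R5, brick FP: four points
-/

set_option autoImplicit false

namespace Pool.Agent.K3h85.R5

open Pool.Agent.K3h26.R5

theorem key_pq (p q : ℝ) (hp1 : -(1 / 2) ≤ p) (hp2 : p ≤ 1 / 2) (hq1 : -(1 / 2) ≤ q)
    (hq2 : q ≤ 1 / 2) :
    1 / 16 * (p ^ 2 + q ^ 2) ≤ 1 / 2 * (p ^ 2 + q ^ 2 + p * q) - p * q * (p + q) := by
  rcases le_total 0 (p * q) with h | h
  · have h1 : p * q * (p + q) ≤ p * q * 1 := mul_le_mul_of_nonneg_left (by linarith) h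
    nlinarith [sq_nonneg (p - q), sq_nonneg p, sq_nonneg q]
  · -- opposite signs
    rcases le_total 0 (p + q) with h0 | h0
    · have h1 : p * q * (p + q) ≤ 0 := mul_nonpos_of_nonpos_of_nonneg h h0
      nlinarith [sq_nonneg (p + q), sq_nonneg p, sq_nonneg q, sq_nonneg (p - q)]
    · -- the sum is negative
      have h2 : ∀ a b : ℝ, 0 ≤ a → -(1 / 2) ≤ b → b ≤ 0 → a + b ≤ 0 →
          1 / 16 * (a ^ 2 + b ^ 2) ≤ 1 / 2 * (a ^ 2 + b ^ 2 + a * b) - a * b * (a + b) := by
        intro a b ha hb1 hb2 hab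
        have h3 : 0 ≤ a * (-(a + b)) * (b + 1 / 2) :=
          mul_nonneg (mul_nonneg ha (by linarith)) (by linarith)
        nlinarith [sq_nonneg (a + b), sq_nonneg a, sq_nonneg b, sq_nonneg (2 * a + b),
          sq_nonneg (3 * a + 2 * b)]
      rcases le_total 0 p with hp | hp
      · have hq : q ≤ 0 := by
          by_contra hq
          push Not at hq
          linarith
        exact h2 p q hp hq1 hq h0
      · rcases le_total 0 q with hq | hq
        · have h3 := h2 q p hq hp1 hp (by linarith)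
          linarith
        · have h3 : 0 ≤ p * q := mul_nonneg_of_nonpos_of_nonpos hp hq
          have h4 : p * q = 0 := le_antisymm h h3
          rw [h4]
          nlinarith [sq_nonneg p, sq_nonneg q]

theorem key_xy (x y : ℝ) (hx0 : 0 ≤ x) (hx1 : x ≤ 1) (hy0 : 0 ≤ y) (hy1 : y ≤ 1) :
    (1 - x) * (1 - y) * (x + y - 1 / 2) + 1 / 16 * ((x - 1 / 2) ^ 2 + (y - 1 / 2) ^ 2) ≤
      1 / 8 := by
  have h := key_pq (x - 1 / 2) (y - 1 / 2) (by linarith) (by linarith) (by linarith) (by linarith)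
  nlinarith [h]

/-- the sign cell -/
noncomputable def cell (v : Fin 5 → ℝ) : Prop × Prop := (0 ≤ v 3, 0 ≤ v 4)

/-- the function `phi` -/
noncomputable def phi (v : Fin 5 → ℝ) : ℝ := (1 - |v 3|) * (1 - |v 4|) * (|v 3| + |v 4| - 1 / 2)

theorem phi_le {v : Fin 5 → ℝ} (hv : my v < 1) :
    phi v + 1 / 16 * ((|v 3| - 1 / 2) ^ 2 + (|v 4| - 1 / 2) ^ 2) ≤ 1 / 8 := by
  have h1 := (max_lt_iff.mp hv).1
  have h2 := (max_lt_iff.mp hv).2
  exact key_xy _ _ (abs_nonneg _) h1.le (abs_nonneg _) h2.le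

theorem same_sign {a b : ℝ} (ha : |a| < 1) (hb : |b| < 1) (h : (0 ≤ a) = (0 ≤ b)) :
    |a - b| < 1 := by
  rw [abs_lt] at ha hb ⊢
  rcases le_or_gt 0 a with h1 | h1
  · have h2 : 0 ≤ b := h ▸ h1
    constructor <;> linarith
  · have h2 : ¬ 0 ≤ b := by
      rw [← h]
      exact not_le.mpr h1
    push Not at h2
    constructor <;> linarith

theorem t_FP : S_FP := by
  classical
  intro W δ hW hmy hsep hmu
  set S : Finset (Fin 5 → ℝ) := hW.toFinset with hS
  have hmem : ∀ v, v ∈ S ↔ v ∈ W := fun v => hW.mem_toFinset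
  have hinj : ∀ v ∈ S, ∀ v' ∈ S, cell v = cell v' → v = v' := by
    intro v hv v' hv' h
    by_contra hne
    have h1 := hmy v ((hmem v).mp hv)
    have h2 := hmy v' ((hmem v').mp hv')
    rcases hsep v ((hmem v).mp hv) v' ((hmem v').mp hv') hne with h3 | h3
    · exact absurd h3 (not_le.mpr (same_sign (max_lt_iff.mp h1).1 (max_lt_iff.mp h2).1
        (congrArg Prod.fst h)))
    · exact absurd h3 (not_le.mpr (same_sign (max_lt_iff.mp h1).2 (max_lt_iff.mp h2).2
        (congrArg Prod.snd h)))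
  have hphi : ∀ v ∈ S, phi v ≤ 1 / 8 := by
    intro v hv
    have h1 := phi_le (hmy v ((hmem v).mp hv))
    nlinarith [sq_nonneg (|v 3| - 1 / 2), sq_nonneg (|v 4| - 1 / 2)]
  -- sums over subsets
  have hsub : ∀ (S' : Finset (Fin 5 → ℝ)) (Cs : Finset (Prop × Prop)), S' ⊆ S →
      (∀ v ∈ S', cell v ∈ Cs) → ∑ v ∈ S', phi v ≤ Cs.card / 8 := by
    intro S' Cs h1 h2
    have h3 : S'.card ≤ Cs.card := Finset.card_le_card_of_injOn cell h2
      fun v hv v' hv' h => hinj v (h1 hv) v' (h1 hv') h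
    have h4 : ∑ v ∈ S', phi v ≤ ∑ _v ∈ S', (1 / 8 : ℝ) :=
      Finset.sum_le_sum fun v hv => hphi v (h1 hv)
    rw [Finset.sum_const, nsmul_eq_mul] at h4
    have h5 : (S'.card : ℝ) ≤ Cs.card := by exact_mod_cast h3
    linarith
  have hsum : ∑ᶠ v ∈ W, mu v * sy v = 1 / 2 * ∑ v ∈ S, phi v + 1 / 4 := by
    rw [finsum_mem_eq_finite_toFinset_sum _ hW] at hmu ⊢
    have h1 : ∀ v ∈ hW.toFinset, mu v * sy v = 1 / 2 * phi v + 1 / 4 * mu v := by
      intro v _
      unfold mu sy phi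
      ring
    rw [Finset.sum_congr rfl h1, Finset.sum_add_distrib, ← Finset.mul_sum, ← Finset.mul_sum, hmu]
    ring
  have hall : ∑ v ∈ S, phi v ≤ 4 / 8 := by
    have h1 := hsub S Finset.univ (Finset.Subset.refl _) fun v _ => Finset.mem_univ _
    have h2 : (Finset.univ : Finset (Prop × Prop)).card = 4 := by
      rw [Finset.card_univ]
      simp
    rw [h2] at h1
    exact_mod_cast h1
  refine ⟨by rw [hsum]; linarith, fun hδ hlow p q hp hq => ?_⟩
  rw [hsum] at hlow
  set cl : Prop × Prop := (p = 1, q = 1) with hcl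
  have hsplit := Finset.sum_filter_add_sum_filter_not S (fun v => cell v = cl) phi
  have hrest : ∑ v ∈ S.filter (fun v => ¬ cell v = cl), phi v ≤ 3 / 8 := by
    have h1 := hsub (S.filter fun v => ¬ cell v = cl) (Finset.univ.erase cl)
      (Finset.filter_subset _ _) fun v hv =>
        Finset.mem_erase.mpr ⟨(Finset.mem_filter.mp hv).2, Finset.mem_univ _⟩
    have h2 : ((Finset.univ : Finset (Prop × Prop)).erase cl).card = 3 := by
      rw [Finset.card_erase_of_mem (Finset.mem_univ _), Finset.card_univ]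
      simp
    rw [h2] at h1
    exact_mod_cast h1
  have hpos : 1 / 8 - δ ≤ ∑ v ∈ S.filter (fun v => cell v = cl), phi v := by linarith
  have hne : (S.filter fun v => cell v = cl).Nonempty := by
    rw [Finset.nonempty_iff_ne_empty]
    intro h
    rw [h, Finset.sum_empty] at hpos
    linarith
  obtain ⟨v, hv⟩ := hne
  have hvS := (Finset.mem_filter.mp hv).1
  have hvc := (Finset.mem_filter.mp hv).2
  have hsing : S.filter (fun v => cell v = cl) = {v} := by
    refine Finset.eq_singleton_iff_unique_mem.mpr ⟨hv, fun w hw => ?_⟩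
    exact hinj w (Finset.mem_filter.mp hw).1 v hvS
      ((Finset.mem_filter.mp hw).2.trans hvc.symm)
  rw [hsing, Finset.sum_singleton] at hpos
  have hmv := hmy v ((hmem v).mp hvS)
  have h1 := phi_le hmv
  have hc1 : (0 ≤ v 3) = (p = 1) := congrArg Prod.fst hvc
  have hc2 : (0 ≤ v 4) = (q = 1) := congrArg Prod.snd hvc
  have habs : ∀ a r : ℝ, (r = 1 ∨ r = -1) → ((0 ≤ a) = (r = 1)) →
      (a - r / 2) ^ 2 = (|a| - 1 / 2) ^ 2 := by
    intro a r hr h
    rcases hr with hr | hr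
    · have h2 : 0 ≤ a := h ▸ hr
      rw [abs_of_nonneg h2, hr]
    · have h2 : ¬ 0 ≤ a := by
        rw [h, hr]
        norm_num
      rw [abs_of_neg (not_le.mp h2), hr]
      ring
  refine ⟨v, (hmem v).mp hvS, ?_⟩
  rw [habs _ _ hp hc1, habs _ _ hq hc2]
  linarith

end Pool.Agent.K3h85.R5
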